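import Pool.Agent.Helper65.CS.Goals2

/-!
# Project CS, packet PTC: the step in polynomial time
-/

set_option autoImplicit false

namespace Pool.Agent.Helper37.CS

open Pool.Agent.Helper65.CS Pool.Agent.Helper78.DT Pool.Agent.Helper81.CC
open Pool.Agent.Helper51.ZP

theorem pt_cands (hX : PtxStmt) (hL : Pool.Agent.Helper78.DT.PtlStmt) {α : Type} [ToData α]
    {B b M n : α → ℕ} {s : α → List (ℕ × Bool)} (hB : PolyTime B) (hb : PolyTime b)
    (hM : PolyTime M) (hn : PolyTime n) (hs : PolyTime s) (hbB : ∀ a, 2 ^ b a ≤ B a) :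
    PolyTime fun a => cands (b a) (M a) (n a) (s a) := by
  have hp : PolyTime fun a => 2 ^ b a := (hL α B b b hB hb hb).2.2.2.2 hbB
  have hal : PolyTime fun a => al (n a) (s a) := ((hX α).2.1 n s hn hs).1
  have hlen : PolyTime fun a => (al (n a) (s a)).length := PolyTime.length hal
  have hq : PolyTime fun a => (al (n a) (s a)).length / 2 ^ b a := PolyTime.div hlen hp
  unfold cands
  refine PolyTime.itep (PolyTime.decide_le hp hlen) ?_ ?_
  · refine PolyTime.flatMap (l := fun a => gens (M a) (b a * ((al (n a) (s a)).length / 2 ^ b a)))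
      (f := fun a r => (gens (M a) ((al (n a) (s a)).length / 2 ^ b a)).map
        fun y => ex (al (n a) (s a)) (b a) r y) (PT_gens hM (PolyTime.mul hb hq)) ?_
    refine PolyTime.list_map
      (l := fun z : α × List Bool => gens (M z.1) ((al (n z.1) (s z.1)).length / 2 ^ b z.1))
      (f := fun (z : α × List Bool) y => ex (al (n z.1) (s z.1)) (b z.1) z.2 y) ?_ ?_
    · refine PT_gens (by fun_prop) ?_
      exact PolyTime.comp (g := fun a => (al (n a) (s a)).length / 2 ^ b a)
        (f := fun z : α × List Bool => z.1) hq (by fun_prop)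
    · have hal' : PolyTime fun z : (α × List Bool) × List Bool => al (n z.1.1) (s z.1.1) :=
        PolyTime.comp (g := fun a => al (n a) (s a))
          (f := fun z : (α × List Bool) × List Bool => z.1.1) hal (by fun_prop)
      exact (hX ((α × List Bool) × List Bool)).1 (fun z => B z.1.1) (fun z => b z.1.1)
        (fun z => al (n z.1.1) (s z.1.1)) (fun z => z.1.2) (fun z => z.2) (by fun_prop)
        (by fun_prop) hal' (by fun_prop) (by fun_prop) (fun z => hbB z.1.1)
  · refine PolyTime.flatMap (l := fun a => (al (n a) (s a)).take 1)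
      (f := fun _ v => [[(v, false)], [(v, true)]]) (PolyTime.take (by fun_prop) hal) ?_
    fun_prop

theorem ptc (hX : PtxStmt) (hL : Pool.Agent.Helper78.DT.PtlStmt) : PtcStmt := by
  intro α _ g B b M n N t hg hB hb hM hn hN ht hbB
  have hc : PolyTime fun a => cands (b a) (M a) (n a) (t a).1 :=
    pt_cands hX hL (s := fun a => (t a).1) hB hb hM hn (by fun_prop) hbB
  have hg' : ∀ {β : Type} [ToData β] (u : β → ℕ) (G : β → DList) (v : β → ℕ),
      PolyTime u → PolyTime G → PolyTime v → PolyTime fun z => g (u z, G z, v z) :=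
    fun u G v hu hG hv => PolyTime.comp (g := g) (f := fun z => (u z, G z, v z)) hg (by fun_prop)
  have hr : PolyTime fun z : α × List (ℕ × Bool) => rst z.2 (t z.1).2 :=
    ((hX (α × List (ℕ × Bool))).2.2.1 (fun z => n z.1) (fun z => n z.1) (fun z => z.2)
      (fun z => (t z.1).2) (by fun_prop) (by fun_prop) (by fun_prop) (by fun_prop)).1
  have hf : PolyTime fun a => (cands (b a) (M a) (n a) (t a).1).find?
      fun e => decide (g (n a, (t a).2, N a) ≤ g (n a, rst e (t a).2, N a) + 3) := by
    refine PolyTime.find? (f := fun a e =>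
      decide (g (n a, (t a).2, N a) ≤ g (n a, rst e (t a).2, N a) + 3)) hc ?_
    refine PolyTime.decide_le (hg' _ _ _ (by fun_prop) (by fun_prop) (by fun_prop))
      (PolyTime.add (hg' _ _ _ (by fun_prop) hr (by fun_prop)) (by fun_prop))
  have h1 : PolyTime fun a => ((cands (b a) (M a) (n a) (t a).1).find?
      fun e => decide (g (n a, (t a).2, N a) ≤ g (n a, rst e (t a).2, N a) + 3)).elim (t a)
      fun e => (e ++ (t a).1, rst e (t a).2) := by
    refine PolyTime.option_elim (g := fun a e => (e ++ (t a).1, rst e (t a).2)) hf ht ?_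
    exact PolyTime.pair (PolyTime.append (by fun_prop) (by fun_prop)) hr
  refine PolyTime.congr h1 fun a => ?_
  unfold step
  cases (cands (b a) (M a) (n a) (t a).1).find?
      fun e => decide (g (n a, (t a).2, N a) ≤ g (n a, rst e (t a).2, N a) + 3) <;> rfl

end Pool.Agent.Helper37.CS
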